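import Pool.Agent.N977.P.Stm

/-!
# The widths of the packets (project NSP of helper977, part JN)

By helper776.
-/

set_option autoImplicit false
set_option linter.all false

namespace Pool.Agent.N776.NSP

open Pool.Agent.N977.P
open Pool.Agent.N977.Q (Mn)

/-- small `n` -/
theorem small {n : ℕ} (h : n + 2 < 2048) (c : ℕ) (hc : c = 250) : 2 ^ n < (n + 2) ^ c := by
  obtain ⟨k, hk⟩ : ∃ k, k = Nat.log 2 (n + 2) := ⟨_, rfl⟩
  have h1 : 2 ^ k ≤ n + 2 := by rw [hk]; exact Nat.pow_log_le_self 2 (by omega)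
  have h2 : n + 2 < 2 ^ (k + 1) := by rw [hk]; exact Nat.lt_pow_succ_log_self (by norm_num) _
  have hk10 : k ≤ 10 := by
    by_contra hc'
    have h3 : 2 ^ 11 ≤ 2 ^ k := Nat.pow_le_pow_right (by norm_num) (by omega)
    have h4 : (2 : ℕ) ^ 11 = 2048 := by norm_num
    omega
  have hk1 : 1 ≤ k := by
    by_contra hc'
    have : k = 0 := by omega
    subst this
    omega
  have h3 : n < c * k := by
    clear hk h1
    subst hc
    interval_cases k <;> norm_num at h2 <;> omega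
  calc 2 ^ n < 2 ^ (c * k) := Nat.pow_lt_pow_right (by norm_num) h3
    _ = (2 ^ k) ^ c := by rw [← pow_mul, mul_comm]
    _ ≤ (n + 2) ^ c := Nat.pow_le_pow_left h1 _

/-- growth of powers -/
theorem grow {N : ℕ} (hN : 1000 ≤ N) {c : ℕ} (hc : c ≤ 500) :
    ((N : ℝ) + 1) ^ c ≤ 2 * (N : ℝ) ^ c := by
  have hN0 : (1000 : ℝ) ≤ N := by exact_mod_cast hN
  have hc0 : (c : ℝ) ≤ 500 := by exact_mod_cast hc
  have e : (N : ℝ) + 1 = N * (1 + 1 / N) := by field_simp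
  rw [e, mul_pow, mul_comm]
  have h1 : (1 + 1 / (N : ℝ)) ^ c ≤ 2 := by
    have h2 : 1 + 1 / (N : ℝ) ≤ Real.exp (1 / N) := by
      have := Real.add_one_le_exp (1 / (N : ℝ))
      linarith
    calc (1 + 1 / (N : ℝ)) ^ c ≤ Real.exp (1 / N) ^ c := by gcongr
      _ = Real.exp (c * (1 / N)) := by rw [← Real.exp_nat_mul]
      _ ≤ Real.exp (Real.log 2) := by
          apply Real.exp_le_exp.2
          have h3 : (c : ℝ) * (1 / N) ≤ 500 * (1 / 1000) := by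
            apply mul_le_mul hc0 _ (by positivity) (by norm_num)
            exact one_div_le_one_div_of_le (by norm_num) hN0
          have := Real.log_two_gt_d9
          linarith
      _ = 2 := Real.exp_log (by norm_num)
  exact mul_le_mul_of_nonneg_right h1 (by positivity)

/-- the widths -/
def Jc (c n : ℕ) : ℕ := max 1 (2 ^ n / (n + 2) ^ c)

section gen

variable {b c d e : ℕ}

theorem A_le (c n : ℕ) : ((2 ^ n / (n + 2) ^ c : ℕ) : ℝ) * ((n : ℝ) + 2) ^ c ≤ 2 ^ n := by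
  have := Nat.div_mul_le_self (2 ^ n) ((n + 2) ^ c)
  exact_mod_cast this

theorem lt_A (c n : ℕ) :
    (2 : ℝ) ^ n < (((2 ^ n / (n + 2) ^ c : ℕ) : ℝ) + 1) * ((n : ℝ) + 2) ^ c := by
  have h : 2 ^ n < (2 ^ n / (n + 2) ^ c + 1) * (n + 2) ^ c := by
    rw [Nat.add_mul, Nat.one_mul]
    exact Nat.lt_div_mul_add (by positivity)
  exact_mod_cast h

theorem J1 (c n : ℕ) : 1 ≤ Jc c n := le_max_left _ _

theorem J1' (c n : ℕ) : (1 : ℝ) ≤ Jc c n := by exact_mod_cast J1 c n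

/-- the two cases -/
theorem J_cases (hs : ∀ n, n + 2 < 2048 → 2 ^ n < (n + 2) ^ c) (n : ℕ) : Jc c n = 1 ∨
    (2 ≤ Jc c n ∧ (Jc c n : ℝ) * ((n : ℝ) + 2) ^ c ≤ 2 ^ n ∧ 2048 ≤ n + 2) := by
  by_cases h : 2 ^ n / (n + 2) ^ c ≤ 1
  · left
    unfold Jc
    exact max_eq_left h
  · right
    push Not at h
    have e : Jc c n = 2 ^ n / (n + 2) ^ c := by
      unfold Jc
      exact max_eq_right (by omega)
    refine ⟨by omega, ?_, ?_⟩
    · rw [e]; exact A_le c n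
    · by_contra hc
      have h1 := hs n (by omega)
      rw [Nat.div_eq_of_lt h1] at h
      omega

theorem J_lb (c n : ℕ) : (2 : ℝ) ^ n ≤ 2 * (Jc c n * ((n : ℝ) + 2) ^ c) := by
  have h1 := lt_A c n
  have h2 : (((2 ^ n / (n + 2) ^ c : ℕ) : ℝ) + 1) ≤ 2 * (Jc c n : ℝ) := by
    have h3 : (2 ^ n / (n + 2) ^ c : ℕ) ≤ Jc c n := le_max_right _ _
    have h4 : ((2 ^ n / (n + 2) ^ c : ℕ) : ℝ) ≤ Jc c n := by exact_mod_cast h3
    have h5 := J1' c n
    linarith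
  have h3 : (0 : ℝ) < ((n : ℝ) + 2) ^ c := by positivity
  generalize ((n : ℝ) + 2) ^ c = P at *
  generalize (((2 ^ n / (n + 2) ^ c : ℕ) : ℝ)) = A at *
  nlinarith

theorem J_ub (hs : ∀ n, n + 2 < 2048 → 2 ^ n < (n + 2) ^ c) (n : ℕ) :
    (Jc c n : ℝ) ≤ 1 + 2 ^ n / ((n : ℝ) + 2) ^ c := by
  have h3 : (0 : ℝ) < ((n : ℝ) + 2) ^ c := by positivity
  have h4 : (0 : ℝ) ≤ 2 ^ n / ((n : ℝ) + 2) ^ c := by positivity
  rcases J_cases hs n with h | ⟨-, h, -⟩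
  · rw [h]; push_cast; linarith
  · rw [← le_div_iff₀ h3] at h
    linarith

theorem Mn_eq (n : ℕ) : ((Mn 8 n : ℕ) : ℝ) = 8 * 2 ^ n := by
  unfold Mn
  push_cast
  ring

/-- the quadratic quantity -/
theorem Q_ub (hs : ∀ n, n + 2 < 2048 → 2 ^ n < (n + 2) ^ c) (hd : d = c + c) (n : ℕ) :
    (Jc c n : ℝ) * ((Jc c n : ℝ) - 1) / Mn 8 n ≤ 2 ^ n / (8 * ((n : ℝ) + 2) ^ d) := by
  have h0 : (0 : ℝ) < ((n : ℝ) + 2) ^ c := by positivity
  have h2 : (0 : ℝ) < 2 ^ n := by positivity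
  rw [Mn_eq]
  rcases J_cases hs n with h | ⟨-, h, -⟩
  · rw [h]
    have : ((1 : ℕ) : ℝ) * (((1 : ℕ) : ℝ) - 1) / (8 * 2 ^ n) = 0 := by simp
    rw [this]
    positivity
  · have h1 := J1' c n
    rw [hd, pow_add]
    generalize ((n : ℝ) + 2) ^ c = P at *
    generalize (Jc c n : ℝ) = J at *
    generalize (2 : ℝ) ^ n = X at *
    rw [div_le_div_iff₀ (by positivity) (by positivity)]
    have h5 : (J * P) * (J * P) ≤ X * X := mul_le_mul h h (by positivity) h2.le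
    have h6 : 0 ≤ J * (P * P) := by positivity
    nlinarith

theorem Q_nonneg (c n : ℕ) : 0 ≤ (Jc c n : ℝ) * ((Jc c n : ℝ) - 1) / Mn 8 n := by
  have h1 := J1' c n
  have : 0 ≤ (Jc c n : ℝ) - 1 := by linarith
  positivity

/-- the sums of the reciprocals of the squares -/
theorem sum_inv (n K : ℕ) : ∑ k ∈ Finset.range K, 1 / (((n + k : ℕ) : ℝ) + 2) ^ 2 ≤ 1 := by
  have h : ∀ K : ℕ, ∑ k ∈ Finset.range K, 1 / (((n + k : ℕ) : ℝ) + 2) ^ 2 ≤
      1 / ((n : ℝ) + 1) - 1 / (((n + K : ℕ) : ℝ) + 1) := by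
    intro K
    induction K with
    | zero => simp
    | succ K ih =>
      rw [Finset.sum_range_succ]
      refine (add_le_add_left ih _).trans ?_
      push_cast
      have hx : (0 : ℝ) < (n : ℝ) + K + 1 := by positivity
      have e : (n : ℝ) + (K + 1) + 1 = ((n : ℝ) + K + 1) + 1 := by ring
      have e2 : (n : ℝ) + K + 2 = ((n : ℝ) + K + 1) + 1 := by ring
      rw [e, e2]
      generalize (n : ℝ) + K + 1 = x at *
      have h5 : 1 / (x + 1) ^ 2 ≤ 1 / x - 1 / (x + 1) := by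
        rw [div_sub_div _ _ hx.ne' (by positivity), div_le_div_iff₀ (by positivity) (by positivity)]
        nlinarith
      linarith
  refine (h K).trans ?_
  have h1 : 1 / ((n : ℝ) + 1) ≤ 1 := by
    rw [div_le_one (by positivity)]
    have : (0 : ℝ) ≤ n := Nat.cast_nonneg n
    linarith
  have h2 : 0 ≤ 1 / (((n + K : ℕ) : ℝ) + 1) := by positivity
  linarith

theorem sum_half (K : ℕ) : ∑ k ∈ Finset.range K, (1 / 2 : ℝ) ^ k ≤ 2 := by
  rw [geom_sum_eq (by norm_num)]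
  have : (0 : ℝ) ≤ (1 / 2) ^ K := by positivity
  rw [div_le_iff_of_neg (by norm_num)]
  linarith

theorem p_J2 (hs : ∀ n, n + 2 < 2048 → 2 ^ n < (n + 2) ^ c) (hc : 10 ≤ c) (n : ℕ) :
    1000 * ((Jc c n : ℝ) - 1) ≤ Mn 8 n := by
  rw [Mn_eq]
  have h0 : (1000 : ℝ) ≤ ((n : ℝ) + 2) ^ c := by
    have h1 : (2 : ℝ) ^ c ≤ ((n : ℝ) + 2) ^ c := by
      gcongr; linarith [(Nat.cast_nonneg n : (0 : ℝ) ≤ n)]
    have h2 : (2 : ℝ) ^ 10 ≤ 2 ^ c := pow_le_pow_right₀ (by norm_num) hc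
    norm_num at h2
    linarith
  have h2 : (0 : ℝ) < 2 ^ n := by positivity
  have h3 := J1' c n
  rcases J_cases hs n with h | ⟨-, h, -⟩
  · rw [h]; push_cast; linarith
  · generalize ((n : ℝ) + 2) ^ c = P at *
    generalize (Jc c n : ℝ) = J at *
    nlinarith

theorem p_mono (hs : ∀ n, n + 2 < 2048 → 2 ^ n < (n + 2) ^ c) (hc : c ≤ 500) (n : ℕ) :
    Jc c n ≤ Jc c (n + 1) := by
  rcases J_cases hs n with h | ⟨h1, h2, h3⟩
  · rw [h]; exact J1 _ _
  · have hg := grow (N := n + 2) (by omega) hc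
    push_cast at hg
    have e : (n : ℝ) + 2 + 1 = (n : ℝ) + 3 := by ring
    rw [e] at hg
    have h4 : (Jc c n : ℝ) * ((n : ℝ) + 3) ^ c ≤ 2 ^ (n + 1) := by
      calc (Jc c n : ℝ) * ((n : ℝ) + 3) ^ c ≤ Jc c n * (2 * ((n : ℝ) + 2) ^ c) := by gcongr
        _ = 2 * (Jc c n * ((n : ℝ) + 2) ^ c) := by ring
        _ ≤ 2 * 2 ^ n := by linarith
        _ = _ := by ring
    have h5 : Jc c n * (n + 3) ^ c ≤ 2 ^ (n + 1) := by exact_mod_cast h4
    have h6 : Jc c n ≤ 2 ^ (n + 1) / (n + 1 + 2) ^ c := by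
      rw [Nat.le_div_iff_mul_le (by positivity)]
      exact h5
    exact h6.trans (le_max_right _ _)

theorem p_three (hs : ∀ n, n + 2 < 2048 → 2 ^ n < (n + 2) ^ c) (n : ℕ) :
    Jc c (n + 1) ≤ 3 * Jc c n := by
  have h1 := J1' c n
  have h5 : (0 : ℝ) < ((n : ℝ) + 2) ^ c := by positivity
  rcases J_cases hs (n + 1) with h | ⟨-, h2, -⟩
  · rw [h]; have := J1 c n; omega
  · have h3 := lt_A c n
    have h4 : (Jc c (n + 1) : ℝ) * ((n : ℝ) + 2) ^ c ≤ 2 * 2 ^ n := by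
      calc (Jc c (n + 1) : ℝ) * ((n : ℝ) + 2) ^ c ≤
            Jc c (n + 1) * (((n + 1 : ℕ) : ℝ) + 2) ^ c := by
            push_cast
            gcongr
            linarith
        _ ≤ 2 ^ (n + 1) := h2
        _ = _ := by ring
    have h6 : (Jc c (n + 1) : ℝ) * ((n : ℝ) + 2) ^ c <
        (2 * (((2 ^ n / (n + 2) ^ c : ℕ) : ℝ) + 1)) * ((n : ℝ) + 2) ^ c := by
      generalize ((n : ℝ) + 2) ^ c = P at *
      nlinarith
    have h7 := lt_of_mul_lt_mul_right h6 h5.le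
    have h8 : Jc c (n + 1) < 2 * (2 ^ n / (n + 2) ^ c + 1) := by exact_mod_cast h7
    have h9 : 2 ^ n / (n + 2) ^ c ≤ Jc c n := le_max_right _ _
    have h10 := J1 c n
    omega

theorem p_up (hs : ∀ n, n + 2 < 2048 → 2 ^ n < (n + 2) ^ c) (n : ℕ) :
    ((Jc c n : ℝ) - 1) * ((n : ℝ) + 2) ^ c ≤ Mn 8 n := by
  rw [Mn_eq]
  have h2 : (0 : ℝ) < 2 ^ n := by positivity
  have h5 : (0 : ℝ) < ((n : ℝ) + 2) ^ c := by positivity
  rcases J_cases hs n with h | ⟨-, h, -⟩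
  · rw [h]; push_cast; linarith
  · generalize ((n : ℝ) + 2) ^ c = P at *
    nlinarith

theorem p_low (n : ℕ) : (Mn 8 n : ℝ) ≤ 16 * (Jc c n * ((n : ℝ) + 2) ^ c) := by
  rw [Mn_eq]
  have := J_lb c n
  linarith

theorem half_pow (n k : ℕ) : (1 / 2 : ℝ) ^ k * 2 ^ (n + k) = 2 ^ n := by
  rw [pow_add, mul_comm ((2 : ℝ) ^ n), ← mul_assoc, ← mul_pow]
  norm_num

theorem p_s1 (hs : ∀ n, n + 2 < 2048 → 2 ^ n < (n + 2) ^ c) (hc : c = b + 2) (n : ℕ) :
    Summable (fun k : ℕ => (1 / 2 : ℝ) ^ k * Jc c (n + k)) ∧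
    ∑' k : ℕ, (1 / 2 : ℝ) ^ k * Jc c (n + k) ≤ 10 * ((n : ℝ) + 2) ^ 2 * Jc c n := by
  have hb : ∀ K, ∑ k ∈ Finset.range K, (1 / 2 : ℝ) ^ k * Jc c (n + k) ≤
      10 * ((n : ℝ) + 2) ^ 2 * Jc c n := by
    intro K
    have hterm : ∀ k : ℕ, (1 / 2 : ℝ) ^ k * Jc c (n + k) ≤
        (1 / 2 : ℝ) ^ k + 2 ^ n / ((n : ℝ) + 2) ^ b * (1 / (((n + k : ℕ) : ℝ) + 2) ^ 2) := by
      intro k
      have h1 := J_ub hs (n + k)
      calc (1 / 2 : ℝ) ^ k * Jc c (n + k) ≤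
            (1 / 2 : ℝ) ^ k * (1 + 2 ^ (n + k) / (((n + k : ℕ) : ℝ) + 2) ^ c) := by gcongr
        _ = (1 / 2 : ℝ) ^ k + 2 ^ n / (((n + k : ℕ) : ℝ) + 2) ^ c := by
            rw [mul_add, mul_one, mul_div_assoc', half_pow]
        _ ≤ _ := by
            rw [hc, pow_add _ b 2, ← div_div, div_eq_mul_one_div _ ((((n + k : ℕ) : ℝ) + 2) ^ 2)]
            gcongr
            push_cast
            linarith [(Nat.cast_nonneg k : (0 : ℝ) ≤ k)]
    calc ∑ k ∈ Finset.range K, (1 / 2 : ℝ) ^ k * Jc c (n + k) ≤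
          ∑ k ∈ Finset.range K, ((1 / 2 : ℝ) ^ k +
            2 ^ n / ((n : ℝ) + 2) ^ b * (1 / (((n + k : ℕ) : ℝ) + 2) ^ 2)) :=
          Finset.sum_le_sum fun k _ => hterm k
      _ = ∑ k ∈ Finset.range K, (1 / 2 : ℝ) ^ k + 2 ^ n / ((n : ℝ) + 2) ^ b *
            ∑ k ∈ Finset.range K, 1 / (((n + k : ℕ) : ℝ) + 2) ^ 2 := by
          rw [Finset.sum_add_distrib, Finset.mul_sum]
      _ ≤ 2 + 2 ^ n / ((n : ℝ) + 2) ^ b * 1 := by
          gcongr
          · exact sum_half K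
          · exact sum_inv n K
      _ ≤ _ := by
          have h3 := J_lb c n
          have h4 := J1' c n
          have h5 : 2 ^ n / ((n : ℝ) + 2) ^ b ≤ 2 * ((n : ℝ) + 2) ^ 2 * Jc c n := by
            rw [div_le_iff₀ (by positivity)]
            rw [hc, pow_add _ b 2] at h3
            rw [hc]
            calc (2 : ℝ) ^ n ≤ _ := h3
              _ = _ := by ring
          have h6 : (4 : ℝ) ≤ ((n : ℝ) + 2) ^ 2 := by
            have : (0 : ℝ) ≤ n := Nat.cast_nonneg n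
            nlinarith
          have h7 : (4 : ℝ) * 1 ≤ ((n : ℝ) + 2) ^ 2 * Jc c n :=
            mul_le_mul h6 h4 (by norm_num) (by positivity)
          generalize 2 ^ n / ((n : ℝ) + 2) ^ b = Y at *
          generalize ((n : ℝ) + 2) ^ 2 = Z at *
          nlinarith
  have h0 : ∀ k, 0 ≤ (1 / 2 : ℝ) ^ k * Jc c (n + k) := fun k => by positivity
  exact ⟨summable_of_sum_range_le h0 hb, Real.tsum_le_of_sum_range_le h0 hb⟩

theorem p_s2 (hs : ∀ n, n + 2 < 2048 → 2 ^ n < (n + 2) ^ c) (hd : d = c + c) (hd5 : d ≤ 500)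
    (n m : ℕ) (hm : m ≤ n + 1) :
    (Jc c m : ℝ) * ((Jc c m : ℝ) - 1) / Mn 8 m * ((n : ℝ) + 2) ^ c ≤ Jc c n := by
  have hQ := Q_ub hs hd m
  have hl := J_lb c n
  rcases J_cases hs m with h | ⟨-, -, h3⟩
  · rw [h]
    have : ((1 : ℕ) : ℝ) * (((1 : ℕ) : ℝ) - 1) / Mn 8 m * ((n : ℝ) + 2) ^ c = 0 := by simp
    rw [this]
    positivity
  · have key : (2 : ℝ) ^ m * ((n : ℝ) + 2) ^ d ≤ 2 * (2 ^ n * ((m : ℝ) + 2) ^ d) := by
      rcases Nat.lt_or_ge n m with hlt | hge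
      · have : m = n + 1 := by omega
        subst this
        push_cast
        have h4 : ((n : ℝ) + 2) ^ d ≤ ((n : ℝ) + 1 + 2) ^ d := by
          gcongr
          linarith
        calc (2 : ℝ) ^ (n + 1) * ((n : ℝ) + 2) ^ d ≤ 2 ^ (n + 1) * ((n : ℝ) + 1 + 2) ^ d := by
              gcongr
          _ = _ := by ring
      · have h5 : ∀ j : ℕ, (((m + j : ℕ) : ℝ) + 2) ^ d ≤ 2 ^ j * ((m : ℝ) + 2) ^ d := by
          intro j
          induction j with
          | zero => simp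
          | succ j ih =>
            have hg := grow (N := m + j + 2) (by omega) hd5
            push_cast at hg ih ⊢
            have e : (m : ℝ) + (j + 1) + 2 = (m : ℝ) + j + 2 + 1 := by ring
            rw [e]
            calc _ ≤ _ := hg
              _ ≤ 2 * (2 ^ j * ((m : ℝ) + 2) ^ d) := by gcongr
              _ = _ := by ring
        obtain ⟨j, rfl⟩ := Nat.exists_eq_add_of_le hge
        calc (2 : ℝ) ^ m * (((m + j : ℕ) : ℝ) + 2) ^ d ≤
              2 ^ m * (2 ^ j * ((m : ℝ) + 2) ^ d) := by gcongr; exact h5 j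
          _ = 2 ^ (m + j) * ((m : ℝ) + 2) ^ d := by rw [pow_add]; ring
          _ ≤ _ := by
              have : (0 : ℝ) ≤ 2 ^ (m + j) * ((m : ℝ) + 2) ^ d := by positivity
              linarith
    rw [show ((n : ℝ) + 2) ^ d = ((n : ℝ) + 2) ^ c * ((n : ℝ) + 2) ^ c by rw [hd, pow_add]] at key
    have hP : (0 : ℝ) < ((n : ℝ) + 2) ^ c := by positivity
    have hR : (0 : ℝ) < ((m : ℝ) + 2) ^ d := by positivity
    calc (Jc c m : ℝ) * ((Jc c m : ℝ) - 1) / Mn 8 m * ((n : ℝ) + 2) ^ c ≤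
          2 ^ m / (8 * ((m : ℝ) + 2) ^ d) * ((n : ℝ) + 2) ^ c := by gcongr
      _ ≤ Jc c n := by
          rw [div_mul_eq_mul_div, div_le_iff₀ (by positivity)]
          generalize ((n : ℝ) + 2) ^ c = P at *
          generalize ((m : ℝ) + 2) ^ d = R at *
          have h6 : (2 : ℝ) ^ m * P * P ≤ 4 * (Jc c n * R) * P := by
            calc (2 : ℝ) ^ m * P * P = 2 ^ m * (P * P) := by ring
              _ ≤ 2 * (2 ^ n * R) := key
              _ ≤ 2 * ((2 * (Jc c n * P)) * R) := by gcongr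
              _ = _ := by ring
          have h7 := le_of_mul_le_mul_right h6 hP
          have h8 : (0 : ℝ) ≤ Jc c n * R := mul_nonneg (Nat.cast_nonneg _) hR.le
          linarith

theorem p_s3 (hs : ∀ n, n + 2 < 2048 → 2 ^ n < (n + 2) ^ c) (hc : c = b + 2) (hd : d = c + c)
    (he : e = c + b) (n : ℕ) :
    Summable (fun k : ℕ => (1 / 2 : ℝ) ^ k *
      (Jc c (n + k) * ((Jc c (n + k) : ℝ) - 1) / Mn 8 (n + k))) ∧
    (∑' k : ℕ, (1 / 2 : ℝ) ^ k * (Jc c (n + k) * ((Jc c (n + k) : ℝ) - 1) / Mn 8 (n + k)))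
      * ((n : ℝ) + 2) ^ b ≤ Jc c n := by
  have hde : d = e + 2 := by omega
  have hb : ∀ K, ∑ k ∈ Finset.range K, (1 / 2 : ℝ) ^ k *
      (Jc c (n + k) * ((Jc c (n + k) : ℝ) - 1) / Mn 8 (n + k)) ≤
      2 ^ n / (8 * ((n : ℝ) + 2) ^ e) := by
    intro K
    have hterm : ∀ k : ℕ, (1 / 2 : ℝ) ^ k *
        (Jc c (n + k) * ((Jc c (n + k) : ℝ) - 1) / Mn 8 (n + k)) ≤
        2 ^ n / (8 * ((n : ℝ) + 2) ^ e) * (1 / (((n + k : ℕ) : ℝ) + 2) ^ 2) := by
      intro k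
      have h1 := Q_ub hs hd (n + k)
      calc (1 / 2 : ℝ) ^ k * (Jc c (n + k) * ((Jc c (n + k) : ℝ) - 1) / Mn 8 (n + k)) ≤
            (1 / 2 : ℝ) ^ k * (2 ^ (n + k) / (8 * (((n + k : ℕ) : ℝ) + 2) ^ d)) := by gcongr
        _ = 2 ^ n / (8 * (((n + k : ℕ) : ℝ) + 2) ^ d) := by
            rw [mul_div_assoc', half_pow]
        _ ≤ _ := by
            rw [hde, pow_add _ e 2, ← mul_assoc, ← div_div,
              div_eq_mul_one_div _ ((((n + k : ℕ) : ℝ) + 2) ^ 2)]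
            gcongr
            push_cast
            linarith [(Nat.cast_nonneg k : (0 : ℝ) ≤ k)]
    calc _ ≤ ∑ k ∈ Finset.range K,
            2 ^ n / (8 * ((n : ℝ) + 2) ^ e) * (1 / (((n + k : ℕ) : ℝ) + 2) ^ 2) :=
          Finset.sum_le_sum fun k _ => hterm k
      _ = 2 ^ n / (8 * ((n : ℝ) + 2) ^ e) *
            ∑ k ∈ Finset.range K, 1 / (((n + k : ℕ) : ℝ) + 2) ^ 2 := by
          rw [Finset.mul_sum]
      _ ≤ 2 ^ n / (8 * ((n : ℝ) + 2) ^ e) * 1 := by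
          gcongr
          exact sum_inv n K
      _ = _ := mul_one _
  have h0 : ∀ k, 0 ≤ (1 / 2 : ℝ) ^ k *
      (Jc c (n + k) * ((Jc c (n + k) : ℝ) - 1) / Mn 8 (n + k)) := fun k =>
    mul_nonneg (by positivity) (Q_nonneg _ _)
  refine ⟨summable_of_sum_range_le h0 hb, ?_⟩
  have h1 := Real.tsum_le_of_sum_range_le h0 hb
  have hl := J_lb c n
  calc _ ≤ 2 ^ n / (8 * ((n : ℝ) + 2) ^ e) * ((n : ℝ) + 2) ^ b := by gcongr
    _ ≤ Jc c n := by
        rw [div_mul_eq_mul_div, div_le_iff₀ (by positivity), he, pow_add]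
        have hP : (0 : ℝ) < ((n : ℝ) + 2) ^ b := by positivity
        have h8 : (0 : ℝ) ≤ Jc c n * (((n : ℝ) + 2) ^ c) := by positivity
        generalize ((n : ℝ) + 2) ^ c = P at *
        generalize ((n : ℝ) + 2) ^ b = R at *
        calc (2 : ℝ) ^ n * R ≤ (2 * (Jc c n * P)) * R := by gcongr
          _ ≤ (8 * (Jc c n * P)) * R := by
              gcongr
              norm_num
          _ = _ := by ring

end gen

/-- **JN.** -/
theorem jn : S_JN := by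
  have hs : ∀ n, n + 2 < 2048 → 2 ^ n < (n + 2) ^ 250 := fun n hn => small hn 250 rfl
  exact ⟨J1 250, p_J2 hs (by norm_num), p_mono hs (by norm_num), p_three hs, p_up hs, p_low,
    p_s1 (b := 248) hs rfl, p_s2 (d := 500) hs rfl le_rfl,
    p_s3 (b := 248) (d := 500) (e := 498) hs rfl rfl rfl⟩

end Pool.Agent.N776.NSP
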